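import Pool.Agent.helper95.RF.SpecC

set_option autoImplicit false

/-!
# Row rf:CRG (the region)
-/

namespace Pool.Agent.RF

open Finset NumberField Pool.Agent.helper3.FT

theorem CRG_sq5 : (√5 : ℝ) ^ 2 = 5 := Real.sq_sqrt (by norm_num)

theorem CRG_va_mul (x y : OO) : va (x * y) = va x * va y := by
  have h := CRG_sq5
  simp only [va, QuadraticAlgebra.re_mul, QuadraticAlgebra.im_mul]
  push_cast
  linear_combination (-(x.im : ℝ) * y.im / 4) * h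

theorem CRG_vb_mul (x y : OO) : vb (x * y) = vb x * vb y := by
  have h := CRG_sq5
  simp only [vb, QuadraticAlgebra.re_mul, QuadraticAlgebra.im_mul]
  push_cast
  linear_combination (-(x.im : ℝ) * y.im / 4) * h

theorem CRG_va_add (x y : OO) : va (x + y) = va x + va y := by
  simp only [va, QuadraticAlgebra.re_add, QuadraticAlgebra.im_add]
  push_cast
  ring

theorem CRG_vb_add (x y : OO) : vb (x + y) = vb x + vb y := by
  simp only [vb, QuadraticAlgebra.re_add, QuadraticAlgebra.im_add]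
  push_cast
  ring

theorem CRG_va_sub (x y : OO) : va (x - y) = va x - va y := by
  simp only [va, QuadraticAlgebra.re_sub, QuadraticAlgebra.im_sub]
  push_cast
  ring

theorem CRG_vb_sub (x y : OO) : vb (x - y) = vb x - vb y := by
  simp only [vb, QuadraticAlgebra.re_sub, QuadraticAlgebra.im_sub]
  push_cast
  ring

theorem CRG_va_neg (x : OO) : va (-x) = -va x := by
  simp only [va, QuadraticAlgebra.re_neg, QuadraticAlgebra.im_neg]
  push_cast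
  ring

theorem CRG_va_star (x : OO) : va (star x) = vb x := by
  simp only [va, vb, QuadraticAlgebra.re_star, QuadraticAlgebra.im_star]
  push_cast
  ring

theorem CRG_vb_star (x : OO) : vb (star x) = va x := by
  simp only [va, vb, QuadraticAlgebra.re_star, QuadraticAlgebra.im_star]
  push_cast
  ring

theorem CRG_va_int (n : ℤ) : va (n : OO) = n := by
  simp only [va, QuadraticAlgebra.re_intCast, QuadraticAlgebra.im_intCast]
  push_cast
  ring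

theorem CRG_vb_int (n : ℤ) : vb (n : OO) = n := by
  simp only [vb, QuadraticAlgebra.re_intCast, QuadraticAlgebra.im_intCast]
  push_cast
  ring

theorem CRG_va_two : va 2 = 2 := by
  have := CRG_va_int 2
  push_cast at this
  exact this

theorem CRG_vb_two : vb 2 = 2 := by
  have := CRG_vb_int 2
  push_cast at this
  exact this

theorem CRG_va_25 : va 25 = 25 := by
  have := CRG_va_int 25
  push_cast at this
  exact this

theorem CRG_va_sq (x : OO) : va (x ^ 2) = va x ^ 2 := by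
  rw [pow_two, CRG_va_mul, pow_two]

theorem CRG_vb_sq (x : OO) : vb (x ^ 2) = vb x ^ 2 := by
  rw [pow_two, CRG_vb_mul, pow_two]

theorem CRG_norm (x : OO) : va x * vb x = (x.norm : ℝ) := by
  have h := CRG_sq5
  simp only [va, vb, QuadraticAlgebra.norm_def]
  push_cast
  linear_combination (-(x.im : ℝ) ^ 2 / 4) * h

theorem CRG_va_ph : va ph = (1 + √5) / 2 := by
  simp [va, ph]

theorem CRG_vb_ph : vb ph = 1 - (1 + √5) / 2 := by
  simp only [vb, ph]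
  push_cast
  ring

theorem CRG_va_r5 : va r5 = √5 := by
  simp only [va, r5]
  push_cast
  ring

theorem CRG_vb_r5 : vb r5 = -√5 := by
  simp only [vb, r5]
  push_cast
  ring

theorem CRG_va_w2 : va w2 = √5 * ((1 + √5) / 2) := by
  have h := CRG_sq5
  simp only [va, w2]
  push_cast
  linear_combination (-1 / 2 : ℝ) * h

/-- the real inequalities -/
theorem CRG_real (a f s t S K K' ν ν' m m' x D q : ℝ) (ha : a ^ 2 = 5) (ha1 : 2.236 < a) (ha2 : a < 2.2361) (hf : f = (1 + a) / 2) (hS : 0 < S) (hs1 : S / 2 ≤ s)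
    (ht : |t| ≤ 2 * S / 10 ^ 4) (hq : 0 < q) (hqK : q ^ 2 = K ^ 2 * K' ^ 2) (hK : K ^ 2 ≤ (1 + f) ^ 2 * q) (hK' : K' ^ 2 ≤ f ^ 2 * q)
    (hm : m ^ 2 ≤ (1 + f) ^ 2 * (S / 10 ^ 4)) (hm' : m' ^ 2 ≤ f ^ 2 * (S / 10 ^ 4)) (e1 : 2 * f * ν' * K ^ 2 = a * s - t) (e2 : 2 * (1 - f) * ν * K' ^ 2 = -(a * s) - t)
    (e3 : 2 * K' * x = -(ν * m + f * ν' * m')) (e4 : x ^ 2 + a * f * D * (25 * K) ^ 2 = ν ^ 2 * ν') :
    s ^ 3 ≤ 2000 * q ^ 4 * D ∧ 500 * q ^ 4 * D ≤ s ^ 3 ∧ q ^ 2 * |ν * ν'| ≤ 2 * s ^ 2 := by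
  have hs : 0 < s := by linarith
  have hff : f ^ 2 = f + 1 := by rw [hf]; linear_combination (1 / 4 : ℝ) * ha
  have hf1 : 1.618 < f := by rw [hf]; linarith
  have hf2 : f < 1.61805 := by rw [hf]; linarith
  obtain ⟨ht1, ht2⟩ := abs_le.1 ht
  have ht3 : |t| ≤ 0.0004 * s := by
    refine ht.trans ?_
    linarith
  obtain ⟨ht4, ht5⟩ := abs_le.1 ht3
  -- the two linear forms
  set u : ℝ := a * s + t with hu
  set v : ℝ := a * s - t with hv
  have has1 : 2.236 * s ≤ a * s := mul_le_mul_of_nonneg_right ha1.le hs.le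
  have has2 : a * s ≤ 2.2361 * s := mul_le_mul_of_nonneg_right ha2.le hs.le
  clear_value u v
  have hu1 : 2.235 * s ≤ u := by rw [hu]; linarith
  have hu2 : u ≤ 2.237 * s := by rw [hu]; linarith
  have hv1 : 2.235 * s ≤ v := by rw [hv]; linarith
  have hv2 : v ≤ 2.237 * s := by rw [hv]; linarith
  have hu0 : 0 < u := by linarith
  have hv0 : 0 < v := by linarith
  have e2' : 2 * (ν * K' ^ 2) = f * u := by
    have h1 : f * (2 * (1 - f) * ν * K' ^ 2) = f * (-(a * s) - t) := by rw [e2]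
    have h2 : f * (1 - f) = -1 := by linarith [hff, (by ring : f * (1 - f) = f - f ^ 2)]
    have h3 : 2 * (f * (1 - f)) * (ν * K' ^ 2) = -(f * u) := by rw [hu]; linarith [h1, (by ring : f * (2 * (1 - f) * ν * K' ^ 2) = 2 * (f * (1 - f)) * (ν * K' ^ 2))]
    rw [h2] at h3
    linarith
  have e1' : 2 * (f * ν' * K ^ 2) = v := by rw [← e1]; ring
  have hs2 : 0 ≤ s ^ 2 := sq_nonneg s
  have hss : (2.237 * s) ^ 2 ≤ 5.0042 * s ^ 2 := by
    rw [mul_pow]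
    exact mul_le_mul_of_nonneg_right (by norm_num) hs2
  have hus : u ^ 2 ≤ 5.0042 * s ^ 2 := (pow_le_pow_left₀ hu0.le hu2 2).trans hss
  have hvs : v ^ 2 ≤ 5.0042 * s ^ 2 := (pow_le_pow_left₀ hv0.le hv2 2).trans hss
  have hfs : f ^ 2 ≤ 2.61805 := by rw [hff]; linarith
  have h1fs : (1 + f) ^ 2 ≤ 6.8542 := by
    have : (1 + f) ^ 2 = 1 + 2 * f + f ^ 2 := by ring
    linarith
  have hf0 : 0 < f := by linarith
  have hK20 : 0 ≤ K ^ 2 := sq_nonneg K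
  have hK'20 : 0 ≤ K' ^ 2 := sq_nonneg K'
  have hq2 : 0 < q ^ 2 := by positivity
  -- P
  have hP : q ^ 2 * ν ^ 2 ≤ 155 * s ^ 2 := by
    have h1 : q ^ 2 * (q ^ 2 * ν ^ 2) = (K ^ 2) ^ 2 * (f * u) ^ 2 / 4 := by
      rw [← e2', hqK]; ring
    have h2 : (K ^ 2) ^ 2 ≤ (6.8542 * q) ^ 2 := by
      apply pow_le_pow_left₀ hK20
      exact hK.trans (mul_le_mul_of_nonneg_right h1fs hq.le)
    have h3 : (f * u) ^ 2 ≤ 2.61805 * (5.0042 * s ^ 2) := by
      rw [mul_pow]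
      exact mul_le_mul hfs hus (sq_nonneg _) (by norm_num)
    have h4 : (K ^ 2) ^ 2 * (f * u) ^ 2 ≤ (6.8542 * q) ^ 2 * (2.61805 * (5.0042 * s ^ 2)) :=
      mul_le_mul h2 h3 (sq_nonneg _) (sq_nonneg _)
    have h5 : q ^ 2 * (q ^ 2 * ν ^ 2) ≤ q ^ 2 * (155 * s ^ 2) := by
      rw [h1]
      have h6 : 0 ≤ q ^ 2 * s ^ 2 := by positivity
      have h7 : (6.8542 * q) ^ 2 * (2.61805 * (5.0042 * s ^ 2)) = (6.8542 ^ 2 * 2.61805 * 5.0042) * (q ^ 2 * s ^ 2) := by ring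
      have h8 : (6.8542 ^ 2 * 2.61805 * 5.0042) * (q ^ 2 * s ^ 2) ≤ 620 * (q ^ 2 * s ^ 2) := mul_le_mul_of_nonneg_right (by norm_num) h6
      rw [h7] at h4
      have h9 : q ^ 2 * (155 * s ^ 2) = 155 * (q ^ 2 * s ^ 2) := by ring
      rw [h9]
      linarith
    exact le_of_mul_le_mul_left h5 hq2
  have hP' : q ^ 2 * (f * ν') ^ 2 ≤ 9 * s ^ 2 := by
    have h1 : q ^ 2 * (q ^ 2 * (f * ν') ^ 2) = (K' ^ 2) ^ 2 * v ^ 2 / 4 := by
      rw [← e1', hqK]; ring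
    have h2 : (K' ^ 2) ^ 2 ≤ (2.61805 * q) ^ 2 := by
      apply pow_le_pow_left₀ hK'20
      exact hK'.trans (mul_le_mul_of_nonneg_right hfs hq.le)
    have h4 : (K' ^ 2) ^ 2 * v ^ 2 ≤ (2.61805 * q) ^ 2 * (5.0042 * s ^ 2) :=
      mul_le_mul h2 hvs (sq_nonneg _) (sq_nonneg _)
    have h5 : q ^ 2 * (q ^ 2 * (f * ν') ^ 2) ≤ q ^ 2 * (9 * s ^ 2) := by
      rw [h1]
      have h6 : 0 ≤ q ^ 2 * s ^ 2 := by positivity
      have h7 : (2.61805 * q) ^ 2 * (5.0042 * s ^ 2) = (2.61805 ^ 2 * 5.0042) * (q ^ 2 * s ^ 2) := by ring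
      have h8 : (2.61805 ^ 2 * 5.0042) * (q ^ 2 * s ^ 2) ≤ 36 * (q ^ 2 * s ^ 2) := mul_le_mul_of_nonneg_right (by norm_num) h6
      rw [h7] at h4
      have h9 : q ^ 2 * (9 * s ^ 2) = 9 * (q ^ 2 * s ^ 2) := by ring
      rw [h9]
      linarith
    exact le_of_mul_le_mul_left h5 hq2
  -- Z
  set Z : ℝ := x ^ 2 * (q ^ 2 * K' ^ 2) with hZ
  have hZ0 : 0 ≤ Z := by positivity
  clear_value Z
  have hm7 : m ^ 2 ≤ 7 * (S / 10 ^ 4) := hm.trans (mul_le_mul_of_nonneg_right (by linarith) (by positivity))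
  have hm3 : m' ^ 2 ≤ 3 * (S / 10 ^ 4) := hm'.trans (mul_le_mul_of_nonneg_right (by linarith) (by positivity))
  have hZ1 : Z ≤ 0.12 * s ^ 3 := by
    have h1 : 4 * Z = q ^ 2 * (ν * m + f * ν' * m') ^ 2 := by
      have : (2 * K' * x) ^ 2 = (ν * m + f * ν' * m') ^ 2 := by rw [e3]; ring
      rw [hZ, ← this]; ring
    have h2 : (ν * m + f * ν' * m') ^ 2 ≤ 2 * (ν * m) ^ 2 + 2 * (f * ν' * m') ^ 2 := by
      nlinarith [sq_nonneg (ν * m - f * ν' * m')]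
    have h3 : 4 * Z ≤ 2 * ((q ^ 2 * ν ^ 2) * m ^ 2) + 2 * ((q ^ 2 * (f * ν') ^ 2) * m' ^ 2) := by
      rw [h1]
      have := mul_le_mul_of_nonneg_left h2 hq2.le
      calc q ^ 2 * (ν * m + f * ν' * m') ^ 2 ≤ q ^ 2 * (2 * (ν * m) ^ 2 + 2 * (f * ν' * m') ^ 2) := this
        _ = _ := by ring
    have h4 : (q ^ 2 * ν ^ 2) * m ^ 2 ≤ (155 * s ^ 2) * (7 * (S / 10 ^ 4)) := mul_le_mul hP hm7 (sq_nonneg _) (by positivity)
    have h5 : (q ^ 2 * (f * ν') ^ 2) * m' ^ 2 ≤ (9 * s ^ 2) * (3 * (S / 10 ^ 4)) := mul_le_mul hP' hm3 (sq_nonneg _) (by positivity)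
    have h6 : s ^ 2 * S ≤ 2 * s ^ 3 := by
      have : s ^ 2 * S ≤ s ^ 2 * (2 * s) := mul_le_mul_of_nonneg_left (by linarith) hs2
      calc s ^ 2 * S ≤ s ^ 2 * (2 * s) := this
        _ = 2 * s ^ 3 := by ring
    have h7 : 0 < s ^ 3 := by positivity
    have h8 : (155 * s ^ 2) * (7 * (S / 10 ^ 4)) = 0.1085 * (s ^ 2 * S) := by ring
    have h9 : (9 * s ^ 2) * (3 * (S / 10 ^ 4)) = 0.0027 * (s ^ 2 * S) := by ring
    rw [h8] at h4
    rw [h9] at h5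
    linarith
  -- the main term
  have hmain : 625 * (a * f) * (q ^ 4 * D) = f * u ^ 2 * v / 8 - Z := by
    have h1 : (ν ^ 2 * ν') * (q ^ 2 * K' ^ 2) = (x ^ 2 + a * f * D * (25 * K) ^ 2) * (q ^ 2 * K' ^ 2) := by rw [e4]
    have h2 : f * ((ν ^ 2 * ν') * (q ^ 2 * K' ^ 2)) = f * (f * u ^ 2 * v / 8) := by
      calc f * ((ν ^ 2 * ν') * (q ^ 2 * K' ^ 2)) = (ν * K' ^ 2) ^ 2 * (f * ν' * K ^ 2) := by rw [hqK]; ring
        _ = (f * u / 2) ^ 2 * (v / 2) := by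
            rw [show ν * K' ^ 2 = f * u / 2 by linarith, show f * ν' * K ^ 2 = v / 2 by linarith]
        _ = _ := by ring
    have h3 : (ν ^ 2 * ν') * (q ^ 2 * K' ^ 2) = f * u ^ 2 * v / 8 := mul_left_cancel₀ hf0.ne' h2
    rw [h3] at h1
    have h4 : (x ^ 2 + a * f * D * (25 * K) ^ 2) * (q ^ 2 * K' ^ 2) = Z + 625 * (a * f) * (q ^ 2 * (K ^ 2 * K' ^ 2) * D) := by
      rw [hZ]; ring
    rw [h4, ← hqK] at h1
    have h5 : q ^ 2 * q ^ 2 * D = q ^ 4 * D := by ring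
    rw [h5] at h1
    linarith
  have haf : a * f = (a + 5) / 2 := by rw [hf]; linear_combination (1 / 2 : ℝ) * ha
  rw [haf] at hmain
  set T : ℝ := q ^ 4 * D with hT
  clear_value T
  have hu3 : 4.99 * s ^ 2 ≤ u ^ 2 := by
    have h1 := pow_le_pow_left₀ (by positivity) hu1 2
    rw [mul_pow] at h1
    have h2 : 4.99 * s ^ 2 ≤ 2.235 ^ 2 * s ^ 2 := mul_le_mul_of_nonneg_right (by norm_num) hs2
    linarith
  have hmlo : 2.2 * s ^ 3 ≤ f * u ^ 2 * v / 8 := by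
    have h1 : (1.618 * (4.99 * s ^ 2)) * (2.235 * s) ≤ f * u ^ 2 * v := by
      apply mul_le_mul _ hv1 (by positivity) (by positivity)
      exact mul_le_mul hf1.le hu3 (by positivity) hf0.le
    have h2 : 0 < s ^ 3 := by positivity
    have h3 : (1.618 * (4.99 * s ^ 2)) * (2.235 * s) = (1.618 * 4.99 * 2.235) * s ^ 3 := by ring
    have h4 : 18 * s ^ 3 ≤ (1.618 * 4.99 * 2.235) * s ^ 3 := mul_le_mul_of_nonneg_right (by norm_num) h2.le
    rw [h3] at h1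
    linarith
  have hmup : f * u ^ 2 * v / 8 ≤ 2.3 * s ^ 3 := by
    have h1 : f * u ^ 2 * v ≤ (1.61805 * (5.0042 * s ^ 2)) * (2.237 * s) := by
      apply mul_le_mul _ hv2 hv0.le (by positivity)
      exact mul_le_mul hf2.le hus (by positivity) (by norm_num)
    have h2 : 0 < s ^ 3 := by positivity
    have h3 : (1.61805 * (5.0042 * s ^ 2)) * (2.237 * s) = (1.61805 * 5.0042 * 2.237) * s ^ 3 := by ring
    have h4 : (1.61805 * 5.0042 * 2.237) * s ^ 3 ≤ 18.2 * s ^ 3 := mul_le_mul_of_nonneg_right (by norm_num) h2.le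
    rw [h3] at h1
    linarith
  have hs3 : 0 < s ^ 3 := by positivity
  have hTpos : 0 < T := by
    have h1 : 0 < 625 * ((a + 5) / 2) * T := by rw [hmain]; linarith
    exact (mul_pos_iff_of_pos_left (by linarith)).1 h1
  refine ⟨?_, ?_, ?_⟩
  · have h1 : 625 * ((a + 5) / 2) * T ≤ 2262 * T := mul_le_mul_of_nonneg_right (by linarith) hTpos.le
    calc s ^ 3 ≤ 2000 * T := by linarith
      _ = 2000 * q ^ 4 * D := by rw [hT]; ring
  · have h1 : 2261 * T ≤ 625 * ((a + 5) / 2) * T := mul_le_mul_of_nonneg_right (by linarith) hTpos.le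
    calc 500 * q ^ 4 * D = 500 * T := by rw [hT]; ring
      _ ≤ s ^ 3 := by linarith
  · have h1 : q ^ 2 * (ν * ν') = u * v / 4 := by
      have h2 : f * (q ^ 2 * (ν * ν')) = f * (u * v / 4) := by
        calc f * (q ^ 2 * (ν * ν')) = (ν * K' ^ 2) * (f * ν' * K ^ 2) := by rw [hqK]; ring
          _ = (f * u / 2) * (v / 2) := by rw [show ν * K' ^ 2 = f * u / 2 by linarith, show f * ν' * K ^ 2 = v / 2 by linarith]
          _ = _ := by ring
      exact mul_left_cancel₀ hf0.ne' h2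
    rw [← abs_of_pos hq2, ← abs_mul, h1, abs_of_pos (by positivity)]
    have h2 : u * v ≤ (2.237 * s) * (2.237 * s) := mul_le_mul hu2 hv2 hv0.le (by positivity)
    have h3 : (2.237 * s) * (2.237 * s) = (2.237 * s) ^ 2 := by ring
    rw [h3] at h2
    linarith

theorem CRG : CRG_stmt := by
  intro k M n X s D S hS hk0 hkre hkim hMre hMim hs1 _ e1 e2 e3
  set q : ℝ := (k.norm.natAbs : ℝ) with hq
  have hq0 : 0 < q := by rw [hq]; exact_mod_cast hk0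
  have hqabs : q = |(k.norm : ℝ)| := by
    rw [hq, Nat.cast_natAbs, Int.cast_abs]
  have hkre' : (k.re : ℝ) ^ 2 ≤ q := by
    have h1 : ((k.re ^ 2 : ℤ) : ℝ) ≤ ((k.norm.natAbs : ℤ) : ℝ) := by exact_mod_cast hkre
    push_cast at h1
    rw [hq]
    simpa using h1
  have hkim' : (k.im : ℝ) ^ 2 ≤ q := by
    have h1 : ((k.im ^ 2 : ℤ) : ℝ) ≤ ((k.norm.natAbs : ℤ) : ℝ) := by exact_mod_cast hkim
    push_cast at h1
    rw [hq]
    simpa using h1
  have h5 := CRG_sq5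
  have ha1 : (2.236 : ℝ) < √5 := by
    apply Real.lt_sqrt_of_sq_lt
    norm_num
  have ha2 : √5 < (2.2361 : ℝ) := by
    rw [Real.sqrt_lt' (by norm_num)]
    norm_num
  have hSq : √S ^ 2 = S := Real.sq_sqrt hS.le
  have hbre : (M.re : ℝ) ^ 2 ≤ S / 10 ^ 4 := by
    have h1 : |(M.re : ℝ)| ^ 2 ≤ (√S / 100) ^ 2 := pow_le_pow_left₀ (abs_nonneg _) hMre 2
    rw [sq_abs, div_pow, hSq] at h1
    linarith
  have hbim : (M.im : ℝ) ^ 2 ≤ S / 10 ^ 4 := by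
    have h1 : |(M.im : ℝ)| ^ 2 ≤ (√S / 100) ^ 2 := pow_le_pow_left₀ (abs_nonneg _) hMim 2
    rw [sq_abs, div_pow, hSq] at h1
    linarith
  -- weighted squares
  have hw : ∀ (x y c B : ℝ), 0 ≤ c → x ^ 2 ≤ B → y ^ 2 ≤ B → (x + y * c) ^ 2 ≤ (1 + c) ^ 2 * B ∧ (x - y * c) ^ 2 ≤ (1 + c) ^ 2 * B := by
    intro x y c B hc hx hy
    have h1 : c * (x - y) ^ 2 ≥ 0 := mul_nonneg hc (sq_nonneg _)
    have h2 : c * (x + y) ^ 2 ≥ 0 := mul_nonneg hc (sq_nonneg _)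
    have h3 : c * x ^ 2 ≤ c * B := mul_le_mul_of_nonneg_left hx hc
    have h4 : c * y ^ 2 ≤ c * B := mul_le_mul_of_nonneg_left hy hc
    have h5 : c ^ 2 * y ^ 2 ≤ c ^ 2 * B := mul_le_mul_of_nonneg_left hy (sq_nonneg c)
    constructor <;> nlinarith
  have hf0 : (0 : ℝ) ≤ (1 + √5) / 2 := by positivity
  have hg0 : (0 : ℝ) ≤ (√5 - 1) / 2 := by linarith
  have hg1 : 1 + (√5 - 1) / 2 = (1 + √5) / 2 := by ring
  have hvb : ∀ z : OO, vb z = (z.re : ℝ) - z.im * ((√5 - 1) / 2) := fun z => by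
    simp only [vb]; ring
  have hK : va k ^ 2 ≤ (1 + (1 + √5) / 2) ^ 2 * q := (hw _ _ _ _ hf0 hkre' hkim').1
  have hK' : vb k ^ 2 ≤ ((1 + √5) / 2) ^ 2 * q := by
    rw [hvb, ← hg1]
    exact (hw _ _ _ _ hg0 hkre' hkim').2
  have hm : va M ^ 2 ≤ (1 + (1 + √5) / 2) ^ 2 * (S / 10 ^ 4) := (hw _ _ _ _ hf0 hbre hbim).1
  have hm' : vb M ^ 2 ≤ ((1 + √5) / 2) ^ 2 * (S / 10 ^ 4) := by
    rw [hvb, ← hg1]
    exact (hw _ _ _ _ hg0 hbre hbim).2
  have ht : |(M.norm : ℝ)| ≤ 2 * S / 10 ^ 4 := by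
    simp only [QuadraticAlgebra.norm_def]
    push_cast
    rw [abs_le]
    constructor <;> nlinarith [sq_nonneg ((M.re : ℝ) - M.im), sq_nonneg ((M.re : ℝ) + M.im)]
  have hqK : q ^ 2 = va k ^ 2 * vb k ^ 2 := by
    rw [← mul_pow, CRG_norm, hqabs, sq_abs]
  have hnorm : (n.norm : ℝ) = va n * vb n := (CRG_norm n).symm
  rw [hnorm]
  have r1 := congrArg va e1
  rw [CRG_va_mul, CRG_va_mul, CRG_va_mul, CRG_va_sub, CRG_va_mul, CRG_va_two, CRG_va_ph, CRG_va_star, CRG_va_sq, CRG_va_r5, CRG_va_int, CRG_va_int] at r1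
  have r2 := congrArg vb e1
  rw [CRG_vb_mul, CRG_vb_mul, CRG_vb_mul, CRG_vb_sub, CRG_vb_mul, CRG_vb_two, CRG_vb_ph, CRG_vb_star, CRG_vb_sq, CRG_vb_r5, CRG_vb_int, CRG_vb_int] at r2
  have r3 := congrArg va e2
  rw [CRG_va_mul, CRG_va_mul, CRG_va_neg, CRG_va_add, CRG_va_mul, CRG_va_mul, CRG_va_mul, CRG_va_two, CRG_va_ph, CRG_va_star, CRG_va_star, CRG_va_star] at r3
  have r4 := congrArg va e3
  rw [CRG_va_add, CRG_va_mul, CRG_va_mul, CRG_va_mul, CRG_va_sq, CRG_va_sq, CRG_va_sq, CRG_va_mul, CRG_va_w2, CRG_va_25, CRG_va_int, CRG_va_star] at r4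
  have hf := CRG_real (√5) ((1 + √5) / 2) s M.norm S (va k) (vb k) (va n) (vb n) (va M) (vb M) (va X) D q h5 ha1 ha2 rfl hS hs1 ht hq0 hqK hK hK' hm hm'
    (by linarith) (by linarith) (by linarith) (by linarith)
  exact hf

end Pool.Agent.RF
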